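import Pool.Agent.Y105.HG.Stm
import Pool.Agent.Helper415.HA2

/-! Project HG, job BIO: orthogonality of the Haar functions. -/

set_option autoImplicit false

open MeasureTheory

namespace Pool.Agent.Y405.HG

open Pool.Agent.Y105.HG
open Pool.Agent.Helper415.HA (μ1 cell ind ind_sq int_ind int_ind_eq integrable_ind cell_le meas_ind)

theorem leb_eq : leb = μ1 := by
  unfold leb μ1
  exact (Measure.restrict_congr_set Ico_ae_eq_Icc).symm

theorem ind_Ico {n k : ℕ} {x : ℝ} (hx : 0 ≤ x) :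
    ind n k x = (Set.Ico ((k : ℝ) / 2 ^ n) (((k : ℝ) + 1) / 2 ^ n)).indicator (fun _ => 1) x := by
  have h2 : (0:ℝ) < 2 ^ n := by positivity
  unfold ind Set.indicator
  have : cell n x = k ↔ x ∈ Set.Ico ((k : ℝ) / 2 ^ n) (((k : ℝ) + 1) / 2 ^ n) := by
    unfold cell
    rw [Nat.floor_eq_iff (mul_nonneg h2.le hx), Set.mem_Ico, div_le_iff₀ h2, lt_div_iff₀ h2,
      mul_comm x]
  by_cases h : cell n x = k
  · rw [if_pos h, if_pos (this.1 h)]
  · rw [if_neg h, if_neg (fun h' => h (this.2 h'))]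

/-- the Haar function in terms of cells -/
noncomputable def HH (n k : ℕ) (x : ℝ) : ℝ := ind (n + 1) (2 * k) x - ind (n + 1) (2 * k + 1) x

theorem hs_eq {n : ℕ} {k : Fin (2 ^ n)} {x : ℝ} (hx : 0 ≤ x) :
    hs (some ⟨n, k⟩) x = HH n k x := by
  have h2 : (2:ℝ) ^ n ≠ 0 := by positivity
  unfold hs HH
  simp only
  rw [ind_Ico hx, ind_Ico hx]
  have e1 : ((2 * (k : ℕ) : ℕ) : ℝ) / 2 ^ (n + 1) = (((k : ℕ) : ℝ)) / 2 ^ n := by
    push_cast; rw [pow_succ]; field_simp
  have e2 : (((2 * (k : ℕ) : ℕ) : ℝ) + 1) / 2 ^ (n + 1) = ((((k : ℕ) : ℝ)) + 1 / 2) / 2 ^ n := by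
    push_cast; rw [pow_succ]; field_simp
  have e3 : ((2 * (k : ℕ) + 1 : ℕ) : ℝ) / 2 ^ (n + 1) = ((((k : ℕ) : ℝ)) + 1 / 2) / 2 ^ n := by
    push_cast; rw [pow_succ]; field_simp
  have e4 : (((2 * (k : ℕ) + 1 : ℕ) : ℝ) + 1) / 2 ^ (n + 1) = ((((k : ℕ) : ℝ)) + 1) / 2 ^ n := by
    push_cast; rw [pow_succ]; field_simp; ring
  rw [e1, e2, e3, e4]

theorem hs_ae {n : ℕ} {k : Fin (2 ^ n)} : hs (some ⟨n, k⟩) =ᵐ[μ1] HH n k := by
  have : ∀ᵐ x ∂μ1, x ∈ Set.Ico (0:ℝ) 1 := by
    unfold μ1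
    exact ae_restrict_mem measurableSet_Ico
  filter_upwards [this] with x hx
  exact hs_eq hx.1

theorem integrable_HH (n k : ℕ) : Integrable (HH n k) μ1 :=
  (integrable_ind _ _).sub (integrable_ind _ _)

theorem int_HH {n k : ℕ} (hk : k < 2 ^ n) : ∫ x, HH n k x ∂μ1 = 0 := by
  unfold HH
  rw [integral_sub (integrable_ind _ _) (integrable_ind _ _), int_ind_eq, int_ind_eq, sub_self]
  · rw [pow_succ]; omega
  · rw [pow_succ]; omega

theorem ind_mul {n m : ℕ} (h : n ≤ m) (a b : ℕ) (x : ℝ) :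
    ind n a x * ind m b x = if b / 2 ^ (m - n) = a then ind m b x else 0 := by
  unfold ind
  have h1 := cell_le h x
  by_cases hb : cell m x = b
  · rw [hb] at h1
    rw [h1, if_pos hb]
    split_ifs <;> simp
  · rw [if_neg hb]
    simp

theorem HH_mul {n m : ℕ} (h : n < m) (k l : ℕ) : ∃ c : ℝ, ∀ x, HH n k x * HH m l x = c * HH m l x := by
  refine ⟨(if (2 * l) / 2 ^ (m + 1 - (n + 1)) = 2 * k then 1 else 0) -
    (if (2 * l) / 2 ^ (m + 1 - (n + 1)) = 2 * k + 1 then 1 else 0), fun x => ?_⟩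
  obtain ⟨d, hd⟩ : ∃ d, m + 1 - (n + 1) = d + 1 := ⟨m - n - 1, by omega⟩
  have hdiv : (2 * l + 1) / 2 ^ (m + 1 - (n + 1)) = (2 * l) / 2 ^ (m + 1 - (n + 1)) := by
    rw [hd, pow_succ', ← Nat.div_div_eq_div_mul, ← Nat.div_div_eq_div_mul]
    congr 1
    omega
  unfold HH
  have a1 := ind_mul (show n + 1 ≤ m + 1 by omega) (2 * k) (2 * l) x
  have a2 := ind_mul (show n + 1 ≤ m + 1 by omega) (2 * k) (2 * l + 1) x
  have a3 := ind_mul (show n + 1 ≤ m + 1 by omega) (2 * k + 1) (2 * l) x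
  have a4 := ind_mul (show n + 1 ≤ m + 1 by omega) (2 * k + 1) (2 * l + 1) x
  rw [hdiv] at a2 a4
  rw [sub_mul, mul_sub, mul_sub, a1, a2, a3, a4]
  split_ifs <;> ring

theorem int_HH_mul {n m : ℕ} (h : n < m) {k l : ℕ} (hl : l < 2 ^ m) :
    ∫ x, HH n k x * HH m l x ∂μ1 = 0 := by
  obtain ⟨c, hc⟩ := HH_mul h k l
  simp only [hc]
  rw [integral_const_mul, int_HH hl, mul_zero]

theorem int_HH_ne {n k l : ℕ} (h : k ≠ l) : ∫ x, HH n k x * HH n l x ∂μ1 = 0 := by
  have : ∀ x, HH n k x * HH n l x = 0 := by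
    intro x
    unfold HH ind
    by_cases h1 : cell (n + 1) x / 2 = k
    · rw [if_neg (show ¬ cell (n + 1) x = 2 * l by omega),
        if_neg (show ¬ cell (n + 1) x = 2 * l + 1 by omega)]
      simp
    · rw [if_neg (show ¬ cell (n + 1) x = 2 * k by omega),
        if_neg (show ¬ cell (n + 1) x = 2 * k + 1 by omega)]
      simp
  simp only [this, integral_zero]

theorem int_HH_sq {n k : ℕ} (hk : k < 2 ^ n) :
    ∫ x, HH n k x * HH n k x ∂μ1 = (1 / 2 : ℝ) ^ n := by
  have : ∀ x, HH n k x * HH n k x = ind (n + 1) (2 * k) x + ind (n + 1) (2 * k + 1) x := by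
    intro x
    unfold HH ind
    by_cases h1 : cell (n + 1) x = 2 * k
    · rw [if_pos h1, if_neg (show ¬ cell (n + 1) x = 2 * k + 1 by omega)]
      norm_num
    · rw [if_neg h1]
      split_ifs <;> norm_num
  simp only [this]
  rw [integral_add (integrable_ind _ _) (integrable_ind _ _), int_ind_eq, int_ind_eq]
  · rw [pow_succ]; ring
  · rw [pow_succ]; omega
  · rw [pow_succ]; omega

theorem bio : S_BIO := by
  intro i j
  rw [leb_eq]
  rcases i with _ | ⟨n, k⟩ <;> rcases j with _ | ⟨m, l⟩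
  · rw [if_pos rfl]
    simp only [hs, lev, mul_one, pow_zero]
    have : (μ1 Set.univ).toReal = 1 := by
      unfold μ1
      rw [Measure.restrict_apply_univ, Real.volume_Ico]
      simp
    rw [integral_const, smul_eq_mul, mul_one]
    exact this
  · rw [if_neg (by simp)]
    simp only [hs.eq_1, one_mul]
    rw [integral_congr_ae hs_ae, int_HH l.2]
  · rw [if_neg (by simp)]
    simp only [hs.eq_1, mul_one]
    rw [integral_congr_ae hs_ae, int_HH k.2]
  · have e : (fun x => hs (some ⟨n, k⟩) x * hs (some ⟨m, l⟩) x) =ᵐ[μ1]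
        fun x => HH n k x * HH m l x := hs_ae.mul hs_ae
    rw [integral_congr_ae e]
    rcases lt_trichotomy n m with h | h | h
    · rw [int_HH_mul h l.2, if_neg]
      intro h'
      simp only [Option.some.injEq, Sigma.mk.injEq] at h'
      omega
    · subst h
      by_cases hkl : (k : ℕ) = l
      · have hkl' : k = l := Fin.ext hkl
        subst hkl'
        rw [if_pos rfl, int_HH_sq k.2]
        rfl
      · rw [int_HH_ne hkl, if_neg]
        intro h'
        simp only [Option.some.injEq, Sigma.mk.injEq, true_and] at h'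
        exact hkl (congrArg Fin.val (eq_of_heq h'))
    · have e2 : (fun x => HH n k x * HH m l x) = fun x => HH m l x * HH n k x := by
        funext x; ring
      rw [e2, int_HH_mul h k.2, if_neg]
      intro h'
      simp only [Option.some.injEq, Sigma.mk.injEq] at h'
      omega

end Pool.Agent.Y405.HG
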