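import Pool.Agent.Y105.HG.Stm

/-! Project HG, job W: the two-point inequality. -/

set_option autoImplicit false

namespace Pool.Agent.Y405.HG

open Pool.Agent.Y105.HG

/-- concavity of `t ^ s` with four points -/
theorem conc4 {s : ℝ} (hs0 : 0 ≤ s) (hs1 : s ≤ 1) {a b c d : ℝ} (ha : 0 ≤ a) (hab : a ≤ b)
    (hac : a ≤ c) (h : a + d = b + c) : a ^ s + d ^ s ≤ b ^ s + c ^ s := by
  have had : a ≤ d := by linarith
  rcases had.eq_or_lt with had | had
  · have h1 : b = a := by linarith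
    have h2 : c = a := by linarith
    rw [← had, h1, h2]
  · have hd : 0 ≤ d := ha.trans had.le
    have hda : 0 < d - a := sub_pos.2 had
    have hdb : 0 ≤ d - b := by linarith
    have hba : 0 ≤ b - a := by linarith
    have hcv := Real.concaveOn_rpow hs0 hs1
    have q1 : 0 ≤ (d - b) / (d - a) := by positivity
    have q2 : 0 ≤ (b - a) / (d - a) := by positivity
    have q3 : (d - b) / (d - a) + (b - a) / (d - a) = 1 := by field_simp; ring
    have q4 : (b - a) / (d - a) + (d - b) / (d - a) = 1 := by field_simp; ring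
    have e1 := hcv.2 (Set.mem_Ici.2 ha) (Set.mem_Ici.2 hd) q1 q2 q3
    have e2 := hcv.2 (Set.mem_Ici.2 ha) (Set.mem_Ici.2 hd) q2 q1 q4
    simp only [smul_eq_mul] at e1 e2
    have k1 : (d - b) / (d - a) * a + (b - a) / (d - a) * d = b := by field_simp; ring
    have k2 : (b - a) / (d - a) * a + (d - b) / (d - a) * d = c := by
      have : c = a + d - b := by linarith
      rw [this]; field_simp; ring
    rw [k1] at e1
    rw [k2] at e2
    have k3 : (d - b) / (d - a) * a ^ s + (b - a) / (d - a) * d ^ s +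
        ((b - a) / (d - a) * a ^ s + (d - b) / (d - a) * d ^ s) = a ^ s + d ^ s := by
      field_simp; ring
    linarith

theorem onep {θ z : ℝ} (h0 : 0 < θ) (h1 : θ ≤ 1) (hz0 : -1 < z) (hz : z ≤ 1) :
    (1 + z) / (1 + (1 - θ) * z) ≤ (1 + z) ^ θ := by
  have hp : 0 < 1 + z := by linarith
  have hq : 0 < 1 + (1 - θ) * z := by nlinarith
  have hB := rpow_one_add_le_one_add_mul_self (s := -z / (1 + z)) (by
    rw [le_div_iff₀ hp]; linarith) h0.le h1
  have e1 : 1 + -z / (1 + z) = (1 + z)⁻¹ := by field_simp; ring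
  have e2 : 1 + θ * (-z / (1 + z)) = (1 + (1 - θ) * z) / (1 + z) := by field_simp; ring
  rw [e1, e2, Real.inv_rpow hp.le] at hB
  have h3 : 0 < (1 + z) ^ θ := Real.rpow_pos_of_pos hp _
  rw [inv_le_comm₀ h3 (by positivity)] at hB
  rwa [inv_div] at hB

/-- the numerical inequality -/
theorem star2 {r z : ℝ} (hr1 : 1 < r) (hr2 : r ≤ 2) (hz0 : 0 ≤ z) (hz1 : z ≤ 1) :
    2 + 2 * (r - 1) ^ 2 * z ^ 2 ≤ (1 + z) ^ r + (1 - z) ^ r := by
  have hθ0 : 0 < r - 1 := by linarith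
  have hθ1 : r - 1 ≤ 1 := by linarith
  have hp : 0 < 1 + z := by linarith
  have e1 : (1 + z) ^ r = (1 + z) ^ (r - 1) * (1 + z) := by
    conv_rhs => rw [← Real.rpow_add_one hp.ne']
    congr 1; ring
  have b1 := onep hθ0 hθ1 (z := z) (by linarith) hz1
  rcases hz1.eq_or_lt with hz1 | hz1
  · subst hz1
    have h2 : (1 - 1 : ℝ) ^ r = 0 := by
      rw [sub_self, Real.zero_rpow (by linarith)]
    rw [h2, e1]
    have h3 : 1 + (r - 1) ^ 2 ≤ (1 + 1 : ℝ) / (1 + (1 - (r - 1)) * 1) := by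
      rw [le_div_iff₀ (by linarith)]
      have : 0 ≤ (r - 1) * (1 - (r - 1)) ^ 2 := by positivity
      nlinarith
    have h4 := h3.trans b1
    nlinarith
  · have hm : 0 < 1 - z := by linarith
    have e2 : (1 - z) ^ r = (1 - z) ^ (r - 1) * (1 - z) := by
      conv_rhs => rw [← Real.rpow_add_one hm.ne']
      congr 1; ring
    have b2 := onep hθ0 hθ1 (z := -z) (by linarith) (by linarith)
    have e3 : 1 + -z = 1 - z := by ring
    rw [e3] at b2
    set β := 1 - (r - 1) with hβ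
    have hβ0 : 0 ≤ β := by linarith
    have hβ1 : β < 1 := by linarith
    have hβz : β * z < 1 := by nlinarith
    have hq1 : 0 < 1 + β * z := by positivity
    have hq2 : 0 < 1 + β * -z := by linarith
    have c1 : (1 + z) / (1 + β * z) * (1 + z) ≤ (1 + z) ^ (r - 1) * (1 + z) :=
      mul_le_mul_of_nonneg_right b1 hp.le
    have c2 : (1 - z) / (1 + β * -z) * (1 - z) ≤ (1 - z) ^ (r - 1) * (1 - z) :=
      mul_le_mul_of_nonneg_right b2 hm.le
    rw [e1, e2]
    refine le_trans ?_ (add_le_add c1 c2)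
    have e4 : (1 + z) / (1 + β * z) * (1 + z) + (1 - z) / (1 + β * -z) * (1 - z) =
        (2 + (2 - 4 * β) * z ^ 2) / ((1 + β * z) * (1 + β * -z)) := by
      rw [div_mul_eq_mul_div, div_mul_eq_mul_div, div_add_div _ _ hq1.ne' hq2.ne']
      congr 1
      ring
    rw [e4, le_div_iff₀ (mul_pos hq1 hq2)]
    have e5 : r - 1 = 1 - β := by rw [hβ]; ring
    rw [e5]
    have : 0 ≤ 2 * ((1 - β) * β * z ^ 2) ^ 2 := by positivity
    nlinarith

theorem sq_rpow {t r : ℝ} (ht : 0 ≤ t) : (t ^ 2) ^ (r / 2) = t ^ r := by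
  rw [← Real.rpow_natCast t 2, ← Real.rpow_mul ht]
  congr 1
  push_cast
  ring

/-- `(*)` for real numbers -/
theorem star1 {r u v : ℝ} (hr1 : 1 < r) (hr2 : r ≤ 2) (hv : 0 ≤ v) (huv : v ≤ u) :
    2 * (u ^ 2 + (r - 1) ^ 2 * v ^ 2) ^ (r / 2) ≤ (u + v) ^ r + (u - v) ^ r := by
  rcases (hv.trans huv).eq_or_lt with hu | hu
  · have hv' : v = 0 := by linarith
    subst hv'
    rw [← hu]
    simp only [ne_eq, OfNat.ofNat_ne_zero, not_false_eq_true, zero_pow, mul_zero, add_zero,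
      sub_zero]
    rw [Real.zero_rpow (by linarith), Real.zero_rpow (by linarith)]
    simp
  · set z := v / u with hz
    have hvz : v = u * z := by rw [hz]; field_simp
    have hz0 : 0 ≤ z := by positivity
    have hz1 : z ≤ 1 := by rw [hz, div_le_one hu]; exact huv
    have e1 : (u + v) ^ r = u ^ r * (1 + z) ^ r := by
      rw [← Real.mul_rpow hu.le (by linarith)]; congr 1; rw [hvz]; ring
    have e2 : (u - v) ^ r = u ^ r * (1 - z) ^ r := by
      rw [← Real.mul_rpow hu.le (by linarith)]; congr 1; rw [hvz]; ring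
    have e3 : (u ^ 2 + (r - 1) ^ 2 * v ^ 2) ^ (r / 2) =
        u ^ r * (1 + (r - 1) ^ 2 * z ^ 2) ^ (r / 2) := by
      rw [← sq_rpow hu.le, ← Real.mul_rpow (by positivity) (by positivity)]
      congr 1
      rw [hvz]; ring
    have h1 : (1 + (r - 1) ^ 2 * z ^ 2) ^ (r / 2) ≤ 1 + (r - 1) ^ 2 * z ^ 2 := by
      have h2 : (1:ℝ) ≤ 1 + (r - 1) ^ 2 * z ^ 2 := by
        have : 0 ≤ (r - 1) ^ 2 * z ^ 2 := by positivity
        linarith
      have := Real.rpow_le_rpow_of_exponent_le h2 (show r / 2 ≤ 1 by linarith)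
      rwa [Real.rpow_one] at this
    have h3 := star2 hr1 hr2 hz0 hz1
    rw [e1, e2, e3, ← mul_add, mul_left_comm]
    refine mul_le_mul_of_nonneg_left ?_ (by positivity)
    linarith

set_option maxHeartbeats 1000000 in
theorem w : S_W := by
  intro 𝕜 _ r hr1 hr2 x y h k hk
  set s := r / 2 with hs
  have hs0 : 0 ≤ s := by rw [hs]; linarith
  have hs1 : s ≤ 1 := by rw [hs]; linarith
  set c := (r - 1) ^ 2 with hc
  have hc0 : 0 < c := by rw [hc]; have : 0 < r - 1 := by linarith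
                         positivity
  have hc1 : c ≤ 1 := by rw [hc]; nlinarith
  set X := ‖x‖ ^ 2 with hX
  set H := ‖h‖ ^ 2 with hH
  have hX0 : 0 ≤ X := by positivity
  have hH0 : 0 ≤ H := by positivity
  have hYp : 0 ≤ ‖y‖ ^ 2 := by positivity
  have hkk : ‖k‖ ^ 2 ≤ H := by rw [hH]; gcongr
  have pl1 := parallelogram_law_with_norm ℝ x h
  have pl2 := parallelogram_law_with_norm ℝ y k
  have hp : ‖x + h‖ ^ r + ‖x - h‖ ^ r ≥ 2 * (X + c * H) ^ s := by
    have hmul : ∃ ρ : ℝ, ‖x + h‖ ^ 2 = X + H + 2 * ρ ∧ ‖x - h‖ ^ 2 = X + H - 2 * ρ ∧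
        |ρ| ≤ ‖x‖ * ‖h‖ := by
      refine ⟨inner ℝ x h, ?_, ?_, abs_real_inner_le_norm x h⟩
      · rw [norm_add_sq_real]; ring
      · rw [norm_sub_sq_real]; ring
    obtain ⟨ρ, h1, h2, h3⟩ := hmul
    rw [← sq_rpow (norm_nonneg (x + h)), ← sq_rpow (norm_nonneg (x - h)), h1, h2, ← hs]
    obtain ⟨h4, h5⟩ := abs_le.1 h3
    have key : ∀ u v : ℝ, 0 ≤ v → v ≤ u → u * v = ‖x‖ * ‖h‖ → u ^ 2 + v ^ 2 = X + H →
        X + c * H ≤ u ^ 2 + c * v ^ 2 →
        2 * (X + c * H) ^ s ≤ (X + H + 2 * ρ) ^ s + (X + H - 2 * ρ) ^ s := by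
      intro u v hv huv e1 e2 e3
      have g1 := star1 hr1 hr2 hv huv
      have g2 : (X + H - 2 * (u * v)) ^ s + (X + H + 2 * (u * v)) ^ s ≤
          (X + H + 2 * ρ) ^ s + (X + H - 2 * ρ) ^ s := by
        refine conc4 hs0 hs1 ?_ ?_ ?_ ?_
        · rw [← e2]; nlinarith [sq_nonneg (u - v)]
        · rw [e1]; linarith
        · rw [e1]; linarith
        · ring
      have g3 : X + H - 2 * (u * v) = (u - v) ^ 2 := by rw [← e2]; ring
      have g4 : X + H + 2 * (u * v) = (u + v) ^ 2 := by rw [← e2]; ring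
      rw [g3, g4, hs, sq_rpow (by linarith), sq_rpow (by linarith), ← hs] at g2
      have g5 : (X + c * H) ^ s ≤ (u ^ 2 + c * v ^ 2) ^ s :=
        Real.rpow_le_rpow (by positivity) e3 hs0
      linarith
    rcases le_total ‖h‖ ‖x‖ with hle | hle
    · exact key ‖x‖ ‖h‖ (norm_nonneg _) hle rfl rfl le_rfl
    · refine key ‖h‖ ‖x‖ (norm_nonneg _) hle (mul_comm _ _) (add_comm _ _) ?_
      have : ‖x‖ ^ 2 ≤ ‖h‖ ^ 2 := by gcongr
      rw [hX, hH]
      nlinarith
  set R := X + ‖y‖ ^ 2 with hR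
  set P := ‖x + h‖ ^ 2 + ‖y + k‖ ^ 2 with hP
  set Q := ‖x - h‖ ^ 2 + ‖y - k‖ ^ 2 with hQ
  have hP0 : 0 ≤ P := by positivity
  have hQ0 : 0 ≤ Q := by positivity
  have hR0 : 0 ≤ R := by positivity
  have hPQ : P + Q ≤ 2 * (R + 2 * H) := by
    have : P + Q = 2 * (R + H + ‖k‖ ^ 2) := by
      rw [hP, hQ, hR, hX, hH]
      nlinarith
    linarith
  have st1 : P ^ s + Q ^ s ≤ 2 * (R + 2 * H) ^ s := by
    have a1 : P ^ s + Q ^ s ≤ ((P + Q) / 2) ^ s + ((P + Q) / 2) ^ s := by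
      rcases le_total P Q with hle | hle
      · exact conc4 hs0 hs1 hP0 (by linarith) (by linarith) (by ring)
      · rw [add_comm (P ^ s)]
        exact conc4 hs0 hs1 hQ0 (by linarith) (by linarith) (by ring)
    have a2 : ((P + Q) / 2) ^ s ≤ (R + 2 * H) ^ s :=
      Real.rpow_le_rpow (by positivity) (by linarith) hs0
    linarith
  have st2 : X ^ s + (R + 2 * H) ^ s ≤ R ^ s + (X + 2 * H) ^ s :=
    conc4 hs0 hs1 hX0 (by linarith) (by linarith) (by ring)
  have st3 : (X + 2 * H) ^ s - X ^ s ≤ 2 / c * ((X + c * H) ^ s - X ^ s) := by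
    have q1 : 0 ≤ 1 - c / 2 := by linarith
    have q2 : 0 ≤ c / 2 := by positivity
    have q3 : 1 - c / 2 + c / 2 = 1 := by ring
    have q4 : (0:ℝ) ≤ X + 2 * H := by positivity
    have hcv := (Real.concaveOn_rpow hs0 hs1).2 (Set.mem_Ici.2 hX0) (Set.mem_Ici.2 q4) q1 q2 q3
    simp only [smul_eq_mul] at hcv
    have e : (1 - c / 2) * X + c / 2 * (X + 2 * H) = X + c * H := by ring
    rw [e] at hcv
    rw [div_mul_eq_mul_div, le_div_iff₀ hc0]
    linarith
  have e1 : ‖x‖ ^ r = X ^ s := by rw [hX, hs, sq_rpow (norm_nonneg _)]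
  rw [e1]
  have hK : 0 < 2 / c := by positivity
  have st4 : 2 / c * (2 * (X + c * H) ^ s) ≤ 2 / c * (‖x + h‖ ^ r + ‖x - h‖ ^ r) :=
    mul_le_mul_of_nonneg_left hp hK.le
  nlinarith

end Pool.Agent.Y405.HG
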